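import Pool.Agent.H84.Ckw

namespace Pool.Agent.Results.MP_7e6923_gt.NotCech

open Pool.Agent.H84.CkwDefs

theorem result : ¬ CechComplete C(Rem, Rem) :=
  Pool.Agent.H84.Ckw.not_cech

end Pool.Agent.Results.MP_7e6923_gt.NotCech
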